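import Pool.Agent.H44.DV.Targets

set_option autoImplicit false

open MeasureTheory Filter Topology Metric Set

namespace Pool.Agent.H59.DV

open Pool.Agent.H44.DU

theorem pf_PO : D_PO := by
  intro Θ κ hκ hpor
  have hae := IsUnifLocDoublingMeasure.ae_tendsto_measure_inter_div (volume : Measure ℝ) Θ
    (2 / κ + 1)
  by_contra hne
  have hex : ∃ t ∈ Θ, ∀ (w : ℕ → ℝ) (δ : ℕ → ℝ), Tendsto δ atTop (𝓝[>] 0) →
      (∀ᶠ j in atTop, t ∈ closedBall (w j) ((2 / κ + 1) * δ j)) →
      Tendsto (fun j => volume (Θ ∩ closedBall (w j) (δ j)) / volume (closedBall (w j) (δ j)))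
        atTop (𝓝 1) := by
    by_contra hcon
    push Not at hcon
    apply hne
    have h0 := ae_iff.mp hae
    refine le_antisymm ?_ bot_le
    rw [← h0]
    refine le_trans ?_ (Measure.le_restrict_apply _ _)
    apply measure_mono
    intro t ht
    refine ⟨?_, ht⟩
    intro hP
    obtain ⟨w, δ, h1, h2, h3⟩ := hcon t ht
    exact h3 (hP w δ h1 h2)
  obtain ⟨t, ht, hP⟩ := hex
  have hs : ∀ j : ℕ, ∃ s, t < s ∧ s < t + 1 / ((j : ℝ) + 1) ∧
      ∀ t', s < t' → t' < s + κ * (s - t) → t' ∉ Θ :=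
    fun j => hpor t ht _ (by positivity)
  choose s hs1 hs2 hs3 using hs
  have hδpos : ∀ j, 0 < κ * (s j - t) / 2 := fun j => by
    have := hs1 j
    have h2 : 0 < s j - t := by linarith
    positivity
  have hlim : Tendsto (fun j => κ * (s j - t) / 2) atTop (𝓝[>] 0) := by
    refine tendsto_nhdsWithin_iff.mpr ⟨?_, Eventually.of_forall fun j => hδpos j⟩
    have h1 : Tendsto (fun j : ℕ => κ * (1 / ((j : ℝ) + 1)) / 2) atTop (𝓝 (κ * 0 / 2)) :=
      (tendsto_one_div_add_atTop_nhds_zero_nat.const_mul κ).div_const 2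
    have h2 : κ * 0 / 2 = (0 : ℝ) := by ring
    rw [h2] at h1
    refine squeeze_zero (fun j => (hδpos j).le) (fun j => ?_) h1
    have := hs2 j
    have h3 : s j - t ≤ 1 / ((j : ℝ) + 1) := by linarith
    have h4 := mul_le_mul_of_nonneg_left h3 hκ.le
    linarith
  have hT := hP (fun j => s j + κ * (s j - t) / 2) (fun j => κ * (s j - t) / 2) hlim
    (Eventually.of_forall fun j => by
      have h1 := hs1 j
      have h2 : 0 < s j - t := by linarith
      rw [mem_closedBall, Real.dist_eq]
      have h3 : t - (s j + κ * (s j - t) / 2) = -((s j - t) * (1 + κ / 2)) := by ring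
      rw [h3, abs_neg, abs_of_pos (by positivity)]
      have h4 : (2 / κ + 1) * (κ * (s j - t) / 2) = (s j - t) * (1 + κ / 2) := by
        field_simp
      rw [h4])
  have hzero : ∀ j, volume (Θ ∩ closedBall (s j + κ * (s j - t) / 2) (κ * (s j - t) / 2)) = 0 := by
    intro j
    refine measure_mono_null ?_ (Set.Finite.measure_zero
      (Set.toFinite ({s j, s j + κ * (s j - t)} : Set ℝ)) volume)
    rintro x ⟨hx, hxb⟩
    rw [mem_closedBall, Real.dist_eq, abs_le] at hxb
    by_contra hcon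
    simp only [Set.mem_insert_iff, Set.mem_singleton_iff, not_or] at hcon
    refine hs3 j x ?_ ?_ hx
    · exact lt_of_le_of_ne (by linarith [hxb.1]) (Ne.symm hcon.1)
    · exact lt_of_le_of_ne (by linarith [hxb.2]) hcon.2
  have hT' : Tendsto (fun _ : ℕ => (0 : ENNReal)) atTop (𝓝 1) := by
    refine hT.congr fun j => ?_
    rw [hzero j, ENNReal.zero_div]
  exact zero_ne_one (tendsto_nhds_unique tendsto_const_nhds hT')

end Pool.Agent.H59.DV
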